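import Pool.Agent.Helper27.KS.GoalsF

/-!
# Log-concave tails of the law of a difference
-/

namespace Pool.Agent.Helper83.KS

open Finset MeasureTheory Filter Topology Pool.Agent.Helper44.KS Pool.Agent.Helper27.KS
open Pool.Agent.Helper89.GP (LX po Ex Pr hh bq Gd gp df SmoStmt)

theorem gd_integrable (hG : GinStmt) {n : ℕ} {R : Fin n → Fin n → Prop} {u v : Fin n}
    (hR : (LX R).Nonempty) (huv : u ≠ v) : Integrable (Gd R u v) := by
  obtain ⟨hm, h0, hp, -, -⟩ := hG n R u v hR huv
  refine ⟨hm.aestronglyMeasurable, ?_⟩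
  rw [hasFiniteIntegral_iff_ofReal (ae_of_all _ h0)]
  have h1 : nu R u v Set.univ = 1 := measure_univ
  unfold nu at h1
  rw [withDensity_apply _ MeasurableSet.univ, Measure.restrict_univ] at h1
  rw [h1]
  exact ENNReal.one_lt_top

theorem nu_real (hG : GinStmt) {n : ℕ} {R : Fin n → Fin n → Prop} {u v : Fin n}
    (hR : (LX R).Nonempty) (huv : u ≠ v) {s : Set ℝ} (hs : MeasurableSet s) :
    (nu R u v).real s = ∫ r in s, Gd R u v r := by
  obtain ⟨hm, h0, -, -, -⟩ := hG n R u v hR huv
  unfold nu Measure.real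
  rw [withDensity_apply _ hs, integral_eq_lintegral_of_nonneg_ae (ae_of_all _ h0)
    hm.aestronglyMeasurable]

theorem lcn (hG : GinStmt) (hS : SmoStmt) : LcnStmt := by
  intro n R u v hR huv
  have hI := gd_integrable hG hR huv
  have hup : ∀ p : ℝ, Tendsto (fun ε : ℝ => ∫ r in p..(p + ε), Gd R u v r) atTop
      (𝓝 ((nu R u v).real (Set.Ioi p))) := by
    intro p
    rw [nu_real hG hR huv measurableSet_Ioi]
    exact intervalIntegral_tendsto_integral_Ioi p hI.integrableOn
      (tendsto_atTop_add_const_left _ _ tendsto_id)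
  have hlo : ∀ p : ℝ, Tendsto (fun ε : ℝ => ∫ r in (p - ε)..p, Gd R u v r) atTop
      (𝓝 ((nu R u v).real (Set.Iio p))) := by
    intro p
    rw [nu_real hG hR huv measurableSet_Iio, ← integral_Iic_eq_integral_Iio]
    refine intervalIntegral_tendsto_integral_Iic p hI.integrableOn ?_
    have h1 : Tendsto (fun ε : ℝ => p + -ε) atTop atBot :=
      tendsto_atBot_add_const_left _ _ tendsto_neg_atTop_atBot
    exact h1.congr fun ε => (sub_eq_add_neg p ε).symm
  refine ⟨(hG n R u v hR huv).2.2.1, ?_, ?_⟩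
  · intro p q l h0 h1
    have h2 := ((hup p).rpow_const (p := 1 - l) (Or.inr (by linarith))).mul
      ((hup q).rpow_const (p := l) (Or.inr h0.le))
    refine le_of_tendsto_of_tendsto h2 (hup _) ?_
    filter_upwards [eventually_gt_atTop (0 : ℝ)] with ε hε
    exact hS n R u v p q l ε hR huv h0 h1 hε
  · intro p q l h0 h1
    have h2 := ((hlo p).rpow_const (p := 1 - l) (Or.inr (by linarith))).mul
      ((hlo q).rpow_const (p := l) (Or.inr h0.le))
    refine le_of_tendsto_of_tendsto h2 (hlo _) ?_
    filter_upwards [eventually_gt_atTop (0 : ℝ)] with ε hε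
    have h3 := hS n R u v (p - ε) (q - ε) l ε hR huv h0 h1 hε
    rw [show p - ε + ε = p by ring, show q - ε + ε = q by ring,
      show (1 - l) * (p - ε) + l * (q - ε) = (1 - l) * p + l * q - ε by ring,
      show (1 - l) * p + l * q - ε + ε = (1 - l) * p + l * q by ring] at h3
    exact h3

end Pool.Agent.Helper83.KS
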