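import Pool.Agent.Helper89.KS.Goals
import Pool.Agent.Helper89.GP.Basic

/-!
# The order type of the exponential model
-/

namespace Pool.Agent.Helper83.KS

open Finset MeasureTheory Filter Topology Pool.Agent.Helper89.GP Pool.Agent.Helper89.KS
open scoped ENNReal

theorem cf_lt_iff (hP : PsfStmt) {n : ℕ} (σ : Equiv.Perm (Fin n)) {e : Fin n → ℝ}
    (he : ∀ l, 0 < e l) (p q : Fin n) : cf σ e p < cf σ e q ↔ po σ p < po σ q := by
  unfold cf
  constructor
  · intro h
    rcases lt_trichotomy (σ p) (σ q) with h1 | h1 | h1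
    · exact h1
    · rw [h1] at h
      exact absurd h (lt_irrefl _)
    · exact absurd h (not_lt.2 ((hP n (σ q) (σ p)).2.2.2 e he h1).le)
  · intro h
    exact (hP n (σ p) (σ q)).2.2.2 e he h

theorem cf_ne (hP : PsfStmt) {n : ℕ} (σ : Equiv.Perm (Fin n)) {e : Fin n → ℝ}
    (he : ∀ l, 0 < e l) {p q : Fin n} (h : p ≠ q) : cf σ e p ≠ cf σ e q := by
  rcases po_lt_or (σ := σ) h with h1 | h1
  · exact ((cf_lt_iff hP σ he p q).2 h1).ne
  · exact ((cf_lt_iff hP σ he q p).2 h1).ne'

theorem real_lt (hE : EnfStmt) (hP : PsfStmt) {n : ℕ} (σ : Equiv.Perm (Fin n)) (p q : Fin n) :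
    (En n).real {e | cf σ e p < cf σ e q} = if po σ p < po σ q then 1 else 0 := by
  have := (hE n).1
  split_ifs with h
  · have h1 : {e : Fin n → ℝ | cf σ e p < cf σ e q} =ᵐ[En n] Set.univ := by
      rw [eventuallyEq_univ]
      filter_upwards [(hE n).2.1] with e he
      exact (cf_lt_iff hP σ he p q).2 h
    rw [measureReal_congr h1]
    exact probReal_univ
  · have h1 : {e : Fin n → ℝ | cf σ e p < cf σ e q} =ᵐ[En n] (∅ : Set (Fin n → ℝ)) := by
      rw [eventuallyEq_empty]
      filter_upwards [(hE n).2.1] with e he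
      exact fun h2 => h ((cf_lt_iff hP σ he p q).1 h2)
    rw [measureReal_congr h1]
    exact measureReal_empty

theorem measurable_lt {n : ℕ} (p q : Fin n) : MeasurableSet {v : Fin n → ℝ | v p < v q} :=
  measurableSet_lt (measurable_pi_apply p) (measurable_pi_apply q)

theorem ord (hE : EnfStmt) (hP : PsfStmt) (hM : MufStmt) : OrdStmt := by
  classical
  intro n R hR
  obtain ⟨-, -, hA, hp⟩ := hM n R hR
  refine ⟨?_, ?_, ?_⟩
  · refine hp (fun v => ∀ p q, p ≠ q → v p ≠ v q) ?_ ?_
    · have h1 : {v : Fin n → ℝ | ∀ p q, p ≠ q → v p ≠ v q} =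
          ⋂ p, ⋂ q, {v : Fin n → ℝ | p ≠ q → v p ≠ v q} := by
        ext v
        simp
      rw [h1]
      refine MeasurableSet.iInter fun p => MeasurableSet.iInter fun q => ?_
      by_cases h : p = q
      · simp [h]
      · have h2 : {v : Fin n → ℝ | p ≠ q → v p ≠ v q} = {v : Fin n → ℝ | v p = v q}ᶜ := by
          ext v
          simp [h]
        rw [h2]
        exact (measurableSet_eq_fun (measurable_pi_apply p) (measurable_pi_apply q)).compl
    · intro σ _
      filter_upwards [(hE n).2.1] with e he p q hpq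
      exact cf_ne hP σ he hpq
  · intro p q
    rw [hA _ (measurable_lt p q), Pr_eq_Ex]
    exact Ex_congr fun σ _ => real_lt hE hP σ p q
  · intro p q hpq
    refine hp (fun v => v p < v q) (measurable_lt p q) ?_
    intro σ hσ
    filter_upwards [(hE n).2.1] with e he
    exact (cf_lt_iff hP σ he p q).2 (mem_LX.1 hσ p q hpq)

end Pool.Agent.Helper83.KS
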