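import Pool.Agent.Helper42.KS.Goals

set_option autoImplicit false

namespace Pool.Agent.Helper42.KS.PkV1

open MeasureTheory

lemma norm_ee (t : ℝ) : ‖ee t‖ = 1 := by
  unfold ee
  exact Complex.norm_exp_ofReal_mul_I _

lemma cont_ee : Continuous ee := by
  unfold ee
  fun_prop

lemma hasDerivAt_ee {φ : ℝ → ℝ} {g s : ℝ} (h : HasDerivAt φ g s) :
    HasDerivAt (fun s => ee (φ s)) (ee (φ s) * ((2 * Real.pi * g : ℝ) * Complex.I)) s := by
  unfold ee
  have h1 : HasDerivAt (fun s => ((2 * Real.pi * φ s : ℝ) : ℂ)) ((2 * Real.pi * g : ℝ) : ℂ) s :=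
    (h.const_mul (2 * Real.pi)).ofReal_comp
  exact (h1.mul_const Complex.I).cexp

/-- first derivative test -/
lemma first {φ g g1 : ℝ → ℝ} (hφ : ∀ s, HasDerivAt φ (g s) s) (hg : ∀ s, HasDerivAt g (g1 s) s)
    (hc : Continuous g1) {u v μ : ℝ} (huv : u ≤ v) (hμ : 0 < μ)
    (h1 : ∀ s ∈ Set.Icc u v, 0 ≤ g1 s) (h2 : ∀ s ∈ Set.Icc u v, μ ≤ |g s|) :
    ‖∫ s in u..v, ee (φ s)‖ ≤ 1 / μ := by
  have hcφ : Continuous φ := continuous_iff_continuousAt.2 fun s => (hφ s).continuousAt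
  have hcg : Continuous g := continuous_iff_continuousAt.2 fun s => (hg s).continuousAt
  have hu : u ∈ Set.Icc u v := ⟨le_refl _, huv⟩
  have hv : v ∈ Set.Icc u v := ⟨huv, le_refl _⟩
  have hIcc : Set.uIcc u v = Set.Icc u v := Set.uIcc_of_le huv
  have hne : ∀ s ∈ Set.Icc u v, g s ≠ 0 := by
    intro s hs h0
    have := h2 s hs
    rw [h0, abs_zero] at this
    linarith
  have hpi : (0 : ℝ) < 2 * Real.pi := by positivity
  set c : ℂ := ((2 * Real.pi : ℝ) : ℂ) * Complex.I with hcdef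
  have hc0 : c ≠ 0 := by
    rw [hcdef]
    refine mul_ne_zero ?_ Complex.I_ne_zero
    exact_mod_cast hpi.ne'
  have hcn : ‖c‖ = 2 * Real.pi := by
    rw [hcdef, norm_mul, Complex.norm_I, mul_one, Complex.norm_real, Real.norm_eq_abs,
      abs_of_pos hpi]
  -- antiderivative
  have hF : ∀ s ∈ Set.uIcc u v, HasDerivAt (fun s => ee (φ s) / (c * (g s : ℂ)))
      (ee (φ s) - ee (φ s) * (g1 s : ℂ) / (c * (g s : ℂ) ^ 2)) s := by
    intro s hs
    rw [hIcc] at hs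
    have hgs : (g s : ℂ) ≠ 0 := by exact_mod_cast hne s hs
    have hd : HasDerivAt (fun s => c * (g s : ℂ)) (c * (g1 s : ℂ)) s :=
      ((hg s).ofReal_comp).const_mul c
    have h := (hasDerivAt_ee (hφ s)).div hd (mul_ne_zero hc0 hgs)
    have e : (ee (φ s) * ((2 * Real.pi * g s : ℝ) * Complex.I) * (c * (g s : ℂ)) -
        ee (φ s) * (c * (g1 s : ℂ))) / (c * (g s : ℂ)) ^ 2 =
        ee (φ s) - ee (φ s) * (g1 s : ℂ) / (c * (g s : ℂ) ^ 2) := by
      have e1 : ((2 * Real.pi * g s : ℝ) : ℂ) * Complex.I = c * (g s : ℂ) := by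
        rw [hcdef]; push_cast; ring
      rw [e1]
      field_simp
    rw [e] at h
    exact h
  have hG : ∀ s ∈ Set.uIcc u v, HasDerivAt (fun s => - (g s)⁻¹) (g1 s / (g s) ^ 2) s := by
    intro s hs
    rw [hIcc] at hs
    have h := ((hg s).inv (hne s hs)).neg
    have e : -(-(g1 s) / (g s) ^ 2) = g1 s / (g s) ^ 2 := by ring
    rw [e] at h
    exact h
  have hcontG : ContinuousOn (fun s => g1 s / (g s) ^ 2) (Set.uIcc u v) := by
    rw [hIcc]
    exact hc.continuousOn.div (hcg.pow 2).continuousOn (fun s hs => pow_ne_zero 2 (hne s hs))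
  have hcontE : Continuous (fun s => ee (φ s)) := cont_ee.comp hcφ
  have hcont2 : ContinuousOn (fun s => ee (φ s) * (g1 s : ℂ) / (c * (g s : ℂ) ^ 2))
      (Set.uIcc u v) := by
    rw [hIcc]
    refine ContinuousOn.div ?_ ?_ ?_
    · exact (hcontE.mul (Complex.continuous_ofReal.comp hc)).continuousOn
    · exact (continuous_const.mul ((Complex.continuous_ofReal.comp hcg).pow 2)).continuousOn
    · intro s hs
      refine mul_ne_zero hc0 (pow_ne_zero 2 ?_)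
      exact_mod_cast hne s hs
  have i1 : IntervalIntegrable (fun s => ee (φ s)) volume u v := hcontE.intervalIntegrable u v
  have i2 : IntervalIntegrable (fun s => ee (φ s) * (g1 s : ℂ) / (c * (g s : ℂ) ^ 2)) volume u v :=
    hcont2.intervalIntegrable
  have iG : IntervalIntegrable (fun s => g1 s / (g s) ^ 2) volume u v := hcontG.intervalIntegrable
  have hFTC := intervalIntegral.integral_eq_sub_of_hasDerivAt hF (i1.sub i2)
  have hGTC := intervalIntegral.integral_eq_sub_of_hasDerivAt hG iG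
  rw [intervalIntegral.integral_sub i1 i2] at hFTC
  have hmain : ∫ s in u..v, ee (φ s) = ee (φ v) / (c * (g v : ℂ)) - ee (φ u) / (c * (g u : ℂ)) +
      ∫ s in u..v, ee (φ s) * (g1 s : ℂ) / (c * (g s : ℂ) ^ 2) := by
    rw [← hFTC]; ring
  have hn : ∀ s ∈ Set.Icc u v, ‖ee (φ s) / (c * (g s : ℂ))‖ ≤ 1 / (2 * Real.pi * μ) := by
    intro s hs
    rw [norm_div, norm_ee, norm_mul, hcn, Complex.norm_real, Real.norm_eq_abs]
    apply one_div_le_one_div_of_le (by positivity)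
    exact mul_le_mul_of_nonneg_left (h2 s hs) hpi.le
  have hint : ‖∫ s in u..v, ee (φ s) * (g1 s : ℂ) / (c * (g s : ℂ) ^ 2)‖ ≤
      ∫ s in u..v, (2 * Real.pi)⁻¹ * (g1 s / (g s) ^ 2) := by
    apply intervalIntegral.norm_integral_le_of_norm_le huv
    · refine Filter.Eventually.of_forall fun s hs => ?_
      have hs' : s ∈ Set.Icc u v := ⟨hs.1.le, hs.2⟩
      rw [norm_div, norm_mul, norm_ee, one_mul, norm_mul, hcn, norm_pow, Complex.norm_real,
        Complex.norm_real, Real.norm_eq_abs, Real.norm_eq_abs, sq_abs, abs_of_nonneg (h1 s hs')]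
      apply le_of_eq
      field_simp
    · exact iG.const_mul _
  rw [intervalIntegral.integral_const_mul, hGTC] at hint
  have hinv : ∀ s ∈ Set.Icc u v, |(g s)⁻¹| ≤ 1 / μ := by
    intro s hs
    rw [abs_inv, ← one_div]
    exact one_div_le_one_div_of_le hμ (h2 s hs)
  have h3 : -(g v)⁻¹ - -(g u)⁻¹ ≤ 2 / μ := by
    have a1 := abs_le.1 (hinv v hv)
    have a2 := abs_le.1 (hinv u hu)
    have : (2 : ℝ) / μ = 1 / μ + 1 / μ := by ring
    rw [this]
    linarith [a1.1, a2.2]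
  have h4 : (2 * Real.pi)⁻¹ * (-(g v)⁻¹ - -(g u)⁻¹) ≤ (2 * Real.pi)⁻¹ * (2 / μ) :=
    mul_le_mul_of_nonneg_left h3 (by positivity)
  have h5 := hn v hv
  have h6 := hn u hu
  have h7 : 1 / (2 * Real.pi * μ) = (2 * Real.pi)⁻¹ * (1 / μ) := by field_simp
  have h8 : (2 * Real.pi)⁻¹ ≤ 1 / 4 := by
    have : (4 : ℝ) ≤ 2 * Real.pi := by linarith [Real.pi_gt_three]
    rw [← one_div]
    exact one_div_le_one_div_of_le (by norm_num) this
  have h9 : 0 < 1 / μ := by positivity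
  calc ‖∫ s in u..v, ee (φ s)‖ ≤ ‖ee (φ v) / (c * (g v : ℂ)) - ee (φ u) / (c * (g u : ℂ))‖ +
        ‖∫ s in u..v, ee (φ s) * (g1 s : ℂ) / (c * (g s : ℂ) ^ 2)‖ := by
        rw [hmain]; exact norm_add_le _ _
    _ ≤ (‖ee (φ v) / (c * (g v : ℂ))‖ + ‖ee (φ u) / (c * (g u : ℂ))‖) +
        (2 * Real.pi)⁻¹ * (2 / μ) := by
        refine add_le_add (norm_sub_le _ _) (hint.trans h4)
    _ ≤ (1 / (2 * Real.pi * μ) + 1 / (2 * Real.pi * μ)) + (2 * Real.pi)⁻¹ * (2 / μ) := by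
        linarith
    _ = (2 * Real.pi)⁻¹ * (4 * (1 / μ)) := by rw [h7]; ring
    _ ≤ 1 / 4 * (4 * (1 / μ)) := mul_le_mul_of_nonneg_right h8 (by positivity)
    _ = 1 / μ := by ring

lemma triv {φ : ℝ → ℝ} {u v : ℝ} (huv : u ≤ v) : ‖∫ s in u..v, ee (φ s)‖ ≤ v - u := by
  have h := intervalIntegral.norm_integral_le_of_norm_le_const (a := u) (b := v)
    (f := fun s => ee (φ s)) (C := 1) (fun s _ => (norm_ee _).le)
  rwa [one_mul, abs_of_nonneg (by linarith)] at h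

lemma incr {g g1 : ℝ → ℝ} (hg : ∀ s, HasDerivAt g (g1 s) s) {u v δ : ℝ}
    (h1 : ∀ s ∈ Set.Icc u v, 1 / δ ^ 2 ≤ g1 s) {x y : ℝ} (hx : x ∈ Set.Icc u v)
    (hy : y ∈ Set.Icc u v) (hxy : x ≤ y) : 1 / δ ^ 2 * (y - x) ≤ g y - g x := by
  refine Convex.mul_sub_le_image_sub_of_le_deriv (convex_Icc u v) ?_ ?_ ?_ x hx y hy hxy
  · exact fun s _ => (hg s).continuousAt.continuousWithinAt
  · exact fun s _ => (hg s).differentiableAt.differentiableWithinAt
  · intro s hs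
    rw [(hg s).deriv]
    exact h1 s (interior_subset hs)

lemma pos {φ g g1 : ℝ → ℝ} (hφ : ∀ s, HasDerivAt φ (g s) s) (hg : ∀ s, HasDerivAt g (g1 s) s)
    (hc : Continuous g1) {u v δ : ℝ} (huv : u ≤ v) (hδ : 0 < δ)
    (h1 : ∀ s ∈ Set.Icc u v, 1 / δ ^ 2 ≤ g1 s) (h0 : 0 ≤ g u) :
    ‖∫ s in u..v, ee (φ s)‖ ≤ 2 * δ := by
  have hcφ : Continuous φ := continuous_iff_continuousAt.2 fun s => (hφ s).continuousAt
  have hcontE : Continuous (fun s => ee (φ s)) := cont_ee.comp hcφ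
  rcases le_total v (u + δ) with h | h
  · have := triv (φ := φ) huv
    linarith
  · rw [← intervalIntegral.integral_add_adjacent_intervals
      (hcontE.intervalIntegrable u (u + δ)) (hcontE.intervalIntegrable (u + δ) v)]
    have a1 := triv (φ := φ) (u := u) (v := u + δ) (by linarith)
    have a2 : ‖∫ s in (u + δ)..v, ee (φ s)‖ ≤ 1 / (1 / δ) := by
      refine first hφ hg hc h (by positivity) ?_ ?_
      · intro s hs
        have := h1 s ⟨by linarith [hs.1], hs.2⟩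
        have h' : 0 < 1 / δ ^ 2 := by positivity
        linarith
      · intro s hs
        have h3 := incr hg h1 (x := u) (y := s) ⟨le_refl _, huv⟩ ⟨by linarith [hs.1], hs.2⟩
          (by linarith [hs.1])
        have h4 : 1 / δ ^ 2 * δ ≤ 1 / δ ^ 2 * (s - u) :=
          mul_le_mul_of_nonneg_left (by linarith [hs.1]) (by positivity)
        have h5 : 1 / δ ^ 2 * δ = 1 / δ := by field_simp
        have h6 : 1 / δ ≤ g s := by linarith
        exact h6.trans (le_abs_self _)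
    rw [one_div_one_div] at a2
    calc _ ≤ ‖∫ s in u..(u + δ), ee (φ s)‖ + ‖∫ s in (u + δ)..v, ee (φ s)‖ := norm_add_le _ _
      _ ≤ 2 * δ := by linarith

lemma neg {φ g g1 : ℝ → ℝ} (hφ : ∀ s, HasDerivAt φ (g s) s) (hg : ∀ s, HasDerivAt g (g1 s) s)
    (hc : Continuous g1) {u v δ : ℝ} (huv : u ≤ v) (hδ : 0 < δ)
    (h1 : ∀ s ∈ Set.Icc u v, 1 / δ ^ 2 ≤ g1 s) (h0 : g v ≤ 0) :
    ‖∫ s in u..v, ee (φ s)‖ ≤ 2 * δ := by
  have hcφ : Continuous φ := continuous_iff_continuousAt.2 fun s => (hφ s).continuousAt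
  have hcontE : Continuous (fun s => ee (φ s)) := cont_ee.comp hcφ
  rcases le_total (v - δ) u with h | h
  · have := triv (φ := φ) huv
    linarith
  · rw [← intervalIntegral.integral_add_adjacent_intervals
      (hcontE.intervalIntegrable u (v - δ)) (hcontE.intervalIntegrable (v - δ) v)]
    have a1 := triv (φ := φ) (u := v - δ) (v := v) (by linarith)
    have a2 : ‖∫ s in u..(v - δ), ee (φ s)‖ ≤ 1 / (1 / δ) := by
      refine first hφ hg hc h (by positivity) ?_ ?_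
      · intro s hs
        have := h1 s ⟨hs.1, by linarith [hs.2]⟩
        have h' : 0 < 1 / δ ^ 2 := by positivity
        linarith
      · intro s hs
        have h3 := incr hg h1 (x := s) (y := v) ⟨hs.1, by linarith [hs.2]⟩ ⟨huv, le_refl _⟩
          (by linarith [hs.2])
        have h4 : 1 / δ ^ 2 * δ ≤ 1 / δ ^ 2 * (v - s) :=
          mul_le_mul_of_nonneg_left (by linarith [hs.2]) (by positivity)
        have h5 : 1 / δ ^ 2 * δ = 1 / δ := by field_simp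
        have h6 : g s ≤ -(1 / δ) := by linarith
        rw [abs_of_nonpos (by linarith [show 0 < 1 / δ by positivity])]
        linarith
    rw [one_div_one_div] at a2
    calc _ ≤ ‖∫ s in u..(v - δ), ee (φ s)‖ + ‖∫ s in (v - δ)..v, ee (φ s)‖ := norm_add_le _ _
      _ ≤ 2 * δ := by linarith

lemma second {φ g g1 : ℝ → ℝ} (hφ : ∀ s, HasDerivAt φ (g s) s) (hg : ∀ s, HasDerivAt g (g1 s) s)
    (hc : Continuous g1) {u v δ : ℝ} (huv : u ≤ v) (hδ : 0 < δ)
    (h1 : ∀ s ∈ Set.Icc u v, 1 / δ ^ 2 ≤ g1 s) :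
    ‖∫ s in u..v, ee (φ s)‖ ≤ 4 * δ := by
  have hcφ : Continuous φ := continuous_iff_continuousAt.2 fun s => (hφ s).continuousAt
  have hcg : Continuous g := continuous_iff_continuousAt.2 fun s => (hg s).continuousAt
  have hcontE : Continuous (fun s => ee (φ s)) := cont_ee.comp hcφ
  rcases le_total 0 (g u) with h | h
  · have := pos hφ hg hc huv hδ h1 h
    linarith
  rcases le_total (g v) 0 with h' | h'
  · have := neg hφ hg hc huv hδ h1 h'
    linarith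
  obtain ⟨z, hz, hz0⟩ := intermediate_value_Icc huv hcg.continuousOn ⟨h, h'⟩
  rw [← intervalIntegral.integral_add_adjacent_intervals
      (hcontE.intervalIntegrable u z) (hcontE.intervalIntegrable z v)]
  have a1 := neg hφ hg hc hz.1 hδ (fun s hs => h1 s ⟨hs.1, hs.2.trans hz.2⟩) hz0.le
  have a2 := pos hφ hg hc hz.2 hδ (fun s hs => h1 s ⟨hz.1.trans hs.1, hs.2⟩) hz0.ge
  calc _ ≤ ‖∫ s in u..z, ee (φ s)‖ + ‖∫ s in z..v, ee (φ s)‖ := norm_add_le _ _
    _ ≤ 4 * δ := by linarith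

lemma big (k : ℕ) (hk : 2 ≤ k) (B Θ : ℝ) (hB : 1 ≤ B) :
    ‖VV k B Θ‖ ≤ 5 * B ^ (-(1 / (k : ℝ))) := by
  have hB0 : 0 < B := by linarith
  have hk0 : (k : ℝ) ≠ 0 := by
    have : k ≠ 0 := by omega
    exact_mod_cast this
  set δ : ℝ := B ^ (-(1 / (k : ℝ))) with hδ
  have hδ0 : 0 < δ := Real.rpow_pos_of_pos hB0 _
  have hδ1 : δ ≤ 1 := by
    rw [hδ]
    apply Real.rpow_le_one_of_one_le_of_nonpos hB
    have : 0 ≤ 1 / (k : ℝ) := by positivity
    linarith
  have hδk : δ ^ k = B⁻¹ := by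
    rw [hδ, ← Real.rpow_natCast, ← Real.rpow_mul hB0.le]
    have : -(1 / (k : ℝ)) * k = -1 := by field_simp
    rw [this, Real.rpow_neg_one]
  obtain ⟨m, rfl⟩ : ∃ m, k = m + 2 := ⟨k - 2, by omega⟩
  have hBδ : B * δ ^ m = 1 / δ ^ 2 := by
    have : δ ^ (m + 2) = δ ^ m * δ ^ 2 := by ring
    rw [this] at hδk
    field_simp
    have h2 : B * (δ ^ m * δ ^ 2) = B * B⁻¹ := by rw [hδk]
    rw [mul_inv_cancel₀ hB0.ne'] at h2
    linarith
  have hφ : ∀ s : ℝ, HasDerivAt (fun s : ℝ => B * s ^ (m + 2) + Θ * s)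
      (B * ((m + 2 : ℝ) * s ^ (m + 1)) + Θ) s := by
    intro s
    have h1 := ((hasDerivAt_pow (m + 2) s).const_mul B).add ((hasDerivAt_id s).const_mul Θ)
    have e : B * (((m + 2 : ℕ) : ℝ) * s ^ (m + 2 - 1)) + Θ * 1 =
        B * ((m + 2 : ℝ) * s ^ (m + 1)) + Θ := by
      rw [mul_one]; push_cast; rfl
    rw [e] at h1
    exact h1
  have hg : ∀ s : ℝ, HasDerivAt (fun s : ℝ => B * ((m + 2 : ℝ) * s ^ (m + 1)) + Θ)
      (B * ((m + 2 : ℝ) * ((m + 1 : ℝ) * s ^ m))) s := by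
    intro s
    have h1 := (((hasDerivAt_pow (m + 1) s).const_mul ((m : ℝ) + 2)).const_mul B).add_const Θ
    have e : B * (((m : ℝ) + 2) * (((m + 1 : ℕ) : ℝ) * s ^ (m + 1 - 1))) =
        B * ((m + 2 : ℝ) * ((m + 1 : ℝ) * s ^ m)) := by
      push_cast; rfl
    rw [e] at h1
    exact h1
  have hc : Continuous (fun s : ℝ => B * ((m + 2 : ℝ) * ((m + 1 : ℝ) * s ^ m))) := by fun_prop
  have h1 : ∀ s ∈ Set.Icc δ 1, 1 / δ ^ 2 ≤ B * ((m + 2 : ℝ) * ((m + 1 : ℝ) * s ^ m)) := by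
    intro s hs
    rw [← hBδ]
    apply mul_le_mul_of_nonneg_left _ hB0.le
    have h2 : δ ^ m ≤ s ^ m := pow_le_pow_left₀ hδ0.le hs.1 m
    have h3 : 0 ≤ s ^ m := pow_nonneg (hδ0.le.trans hs.1) m
    have h4 : (1 : ℝ) ≤ (m + 2) * (m + 1) := by
      have : (0 : ℝ) ≤ m := by positivity
      nlinarith
    calc δ ^ m ≤ 1 * s ^ m := by rw [one_mul]; exact h2
      _ ≤ ((m + 2) * (m + 1)) * s ^ m := mul_le_mul_of_nonneg_right h4 h3
      _ = _ := by ring
  have hcontE : Continuous (fun s : ℝ => ee (B * s ^ (m + 2) + Θ * s)) :=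
    cont_ee.comp (by fun_prop)
  unfold VV
  rw [← intervalIntegral.integral_add_adjacent_intervals
      (hcontE.intervalIntegrable 0 δ) (hcontE.intervalIntegrable δ 1)]
  have a1 := triv (φ := fun s : ℝ => B * s ^ (m + 2) + Θ * s) hδ0.le
  have a2 := second hφ hg hc hδ1 hδ0 h1
  calc _ ≤ ‖∫ s in (0 : ℝ)..δ, ee (B * s ^ (m + 2) + Θ * s)‖ +
        ‖∫ s in δ..1, ee (B * s ^ (m + 2) + Θ * s)‖ := norm_add_le _ _
    _ ≤ 5 * δ := by linarith

lemma ee_neg (t : ℝ) : ee (-t) = (starRingEnd ℂ) (ee t) := by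
  unfold ee
  rw [← Complex.exp_conj]
  congr 1
  rw [map_mul, Complex.conj_I, Complex.conj_ofReal]
  push_cast
  ring

lemma VV_neg (k : ℕ) (B Θ : ℝ) : ‖VV k (-B) (-Θ)‖ = ‖VV k B Θ‖ := by
  unfold VV
  rw [intervalIntegral.integral_of_le zero_le_one, intervalIntegral.integral_of_le zero_le_one]
  have : ∀ s : ℝ, ee (-B * s ^ k + -Θ * s) = (starRingEnd ℂ) (ee (B * s ^ k + Θ * s)) := by
    intro s
    rw [← ee_neg]
    congr 1
    ring
  simp_rw [this]
  rw [integral_conj, RCLike.norm_conj]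

lemma bigabs (k : ℕ) (hk : 2 ≤ k) (B Θ : ℝ) (hB : 1 ≤ |B|) :
    ‖VV k B Θ‖ ≤ 5 * |B| ^ (-(1 / (k : ℝ))) := by
  rcases le_total 0 B with h | h
  · rw [abs_of_nonneg h] at hB ⊢
    exact big k hk B Θ hB
  · rw [abs_of_nonpos h] at hB ⊢
    have := big k hk (-B) (-Θ) hB
    rwa [VV_neg] at this

theorem thm : G_V1 := by
  intro k hk
  refine ⟨10, fun B Θ => ?_⟩
  have hk0 : (2 : ℝ) ≤ k := by exact_mod_cast hk
  have hexp : 1 / (k : ℝ) ≤ 1 := by
    rw [div_le_one (by linarith)]; linarith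
  have hexp0 : 0 ≤ 1 / (k : ℝ) := by positivity
  have h2 : (1 / 2 : ℝ) ≤ (2 : ℝ) ^ (-(1 / (k : ℝ))) := by
    have : (2 : ℝ) ^ (-1 : ℝ) ≤ (2 : ℝ) ^ (-(1 / (k : ℝ))) :=
      Real.rpow_le_rpow_of_exponent_le (by norm_num) (by linarith)
    rw [Real.rpow_neg_one] at this
    linarith
  rcases le_total 1 |B| with h | h
  · have a := bigabs k hk B Θ h
    have hB0 : 0 < |B| := by linarith
    have b : (2 * |B|) ^ (-(1 / (k : ℝ))) ≤ (1 + |B|) ^ (-(1 / (k : ℝ))) :=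
      Real.rpow_le_rpow_of_nonpos (by linarith) (by linarith) (by linarith)
    rw [Real.mul_rpow (by norm_num) hB0.le] at b
    have c0 : 0 ≤ |B| ^ (-(1 / (k : ℝ))) := (Real.rpow_pos_of_pos hB0 _).le
    have c : 1 / 2 * |B| ^ (-(1 / (k : ℝ))) ≤ 2 ^ (-(1 / (k : ℝ))) * |B| ^ (-(1 / (k : ℝ))) :=
      mul_le_mul_of_nonneg_right h2 c0
    linarith
  · have a : ‖VV k B Θ‖ ≤ 1 := by
      have := triv (φ := fun s : ℝ => B * s ^ k + Θ * s) (u := 0) (v := 1) (by norm_num)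
      unfold VV
      linarith
    have b : (2 : ℝ) ^ (-(1 / (k : ℝ))) ≤ (1 + |B|) ^ (-(1 / (k : ℝ))) :=
      Real.rpow_le_rpow_of_nonpos (by linarith [abs_nonneg B]) (by linarith) (by linarith)
    linarith

end Pool.Agent.Helper42.KS.PkV1
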